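import Pool.Agent.helper32.TRG.Spec

/-! # Project TRG, row S4N: soundness of the closure with signs (adapted from the row GSN of helper75) -/

set_option autoImplicit false

open Finset

namespace Pool.Agent.TRI

open Pool.Agent.EXC

theorem S4N_key {G : Type} [Group G] (H : Subgroup G) {p₁ p₂ x q₁ q₂ y z : G} (hxy : x * y * x⁻¹ = y * z)
    (h1 : Commute p₁ q₁) (h2 : Commute p₁ y) (h3 : Commute p₁ q₂) (h4 : Commute p₁ z) (h5 : Commute p₂ q₁)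
    (h6 : Commute p₂ y) (h7 : Commute p₂ q₂) (h8 : Commute x q₁) (h9 : Commute x q₂) (h10 : Commute q₂ z)
    (hP : p₁ * (x * p₂) ∈ H) (hQ : q₁ * (y * q₂) ∈ H) : z ∈ H := by
  have hc1 : Commute p₁ (q₁ * (y * q₂)) := h1.mul_right (h2.mul_right h3)
  have hc2 : Commute p₂ (q₁ * (y * q₂)) := h5.mul_right (h6.mul_right h7)
  have hx : x * y = y * z * x := by rw [← hxy]; group
  have hxQ : x * (q₁ * (y * q₂)) = q₁ * (y * q₂) * z * x := by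
    calc x * (q₁ * (y * q₂)) = (x * q₁) * y * q₂ := by group
      _ = (q₁ * x) * y * q₂ := by rw [h8.eq]
      _ = q₁ * (x * y) * q₂ := by group
      _ = q₁ * (y * z * x) * q₂ := by rw [hx]
      _ = q₁ * y * z * (x * q₂) := by group
      _ = q₁ * y * z * (q₂ * x) := by rw [h9.eq]
      _ = q₁ * y * (z * q₂) * x := by group
      _ = q₁ * y * (q₂ * z) * x := by rw [h10.eq]
      _ = q₁ * (y * q₂) * z * x := by group
  have hPQ : p₁ * (x * p₂) * (q₁ * (y * q₂)) = q₁ * (y * q₂) * z * (p₁ * (x * p₂)) := by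
    calc p₁ * (x * p₂) * (q₁ * (y * q₂)) = p₁ * x * (p₂ * (q₁ * (y * q₂))) := by group
      _ = p₁ * x * ((q₁ * (y * q₂)) * p₂) := by rw [hc2.eq]
      _ = p₁ * (x * (q₁ * (y * q₂))) * p₂ := by group
      _ = p₁ * (q₁ * (y * q₂) * z * x) * p₂ := by rw [hxQ]
      _ = (p₁ * (q₁ * (y * q₂))) * z * x * p₂ := by group
      _ = ((q₁ * (y * q₂)) * p₁) * z * x * p₂ := by rw [hc1.eq]
      _ = (q₁ * (y * q₂)) * (p₁ * z) * x * p₂ := by group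
      _ = (q₁ * (y * q₂)) * (z * p₁) * x * p₂ := by rw [h4.eq]
      _ = q₁ * (y * q₂) * z * (p₁ * (x * p₂)) := by group
  have hz : z = (q₁ * (y * q₂))⁻¹ * ((p₁ * (x * p₂)) * (q₁ * (y * q₂)) * (p₁ * (x * p₂))⁻¹) := by
    rw [hPQ]
    group
  rw [hz]
  exact H.mul_mem (H.inv_mem hQ) (H.mul_mem (H.mul_mem hP hQ) (H.inv_mem hP))

theorem S4N_sg (F : Type) [Field F] (v w : Fin 4 → ℤ) :
    ((sg C4 v w : ℤ) : F) = 1 ∨ ((sg C4 v w : ℤ) : F) = -1 := by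
  unfold sg
  split_ifs
  · left; simp
  · right; simp

theorem S4N_mul {F : Type} [Field F] {a b : F} (ha : a = 1 ∨ a = -1) (hb : b = 1 ∨ b = -1) :
    a * b = 1 ∨ a * b = -1 := by
  rcases ha with rfl | rfl <;> rcases hb with rfl | rfl <;> simp

/-- the entries of a list of parameters -/
theorem S4N_mem {K : Type} [Field K] {P : List ((Fin 4 → ℤ) × Bool)} {l : List ((Fin 4 → ℤ) × K)} (h : OKs P l) :
    ∀ q ∈ l, ∃ p ∈ P, q.1 = p.1 ∧ (p.2 = true → q.2 = 1 ∨ q.2 = -1) := by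
  unfold OKs at h
  induction h with
  | nil => intro q hq; simp at hq
  | cons h1 _ ih =>
    intro q hq
    rcases List.mem_cons.1 hq with rfl | hq
    · exact ⟨_, List.mem_cons_self, h1⟩
    · obtain ⟨p, hp, h2⟩ := ih q hq
      exact ⟨p, List.mem_cons_of_mem _ hp, h2⟩

/-- splitting a list of parameters -/
theorem S4N_split {K : Type} [Field K] (P₂ : List ((Fin 4 → ℤ) × Bool)) (u : Fin 4 → ℤ) :
    ∀ (P₁ : List ((Fin 4 → ℤ) × Bool)) (l : List ((Fin 4 → ℤ) × K)), OKs (P₁ ++ (u, true) :: P₂) l →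
      ∃ (l₁ l₂ : List ((Fin 4 → ℤ) × K)) (ε : K), l = l₁ ++ (u, ε) :: l₂ ∧ OKs P₁ l₁ ∧ OKs P₂ l₂ ∧ (ε = 1 ∨ ε = -1) := by
  intro P₁
  induction P₁ with
  | nil =>
    intro l h
    rw [List.nil_append] at h
    unfold OKs at h
    obtain ⟨q, l', h1, h2, rfl⟩ := List.forall₂_cons_left_iff.1 h
    refine ⟨[], l', q.2, ?_, List.Forall₂.nil, h2, h1.2 rfl⟩
    rw [List.nil_append]
    have h3 : q.1 = u := h1.1
    rw [← h3]
  | cons p P₁ ih =>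
    intro l h
    rw [List.cons_append] at h
    unfold OKs at h
    obtain ⟨q, l', h1, h2, rfl⟩ := List.forall₂_cons_left_iff.1 h
    obtain ⟨l₁, l₂, ε, rfl, h3, h4, h5⟩ := ih l' h2
    exact ⟨q :: l₁, l₂, ε, rfl, List.Forall₂.cons h1 h3, h4, h5⟩

theorem S4N (hX4C : X4C_stmt) : S4N_stmt := by
  intro K _ χ c hc PL H hroot hPL r hr
  have hX := hX4C K χ c hc
  have hadd : ∀ α, ip C4 α α = 2 → ∀ s t : K, XP χ c α (s + t) = XP χ c α s * XP χ c α t := fun α hα s t =>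
    (hX α α hα hα s t).1
  have hzero : ∀ α, ip C4 α α = 2 → XP χ c α (0 : K) = 1 := fun α hα => (hX α α hα hα 0 0).2.1
  have hcom : ∀ α β, ip C4 α α = 2 → ip C4 β β = 2 → 0 ≤ ip C4 α β → ∀ s t : K,
      Commute (XP χ c α s) (XP χ c β t) := fun α β hα hβ h s t => (hX α β hα hβ s t).2.2.1 h
  have hinv : ∀ α, ip C4 α α = 2 → (XP χ c α (-1 : K)) = (XP χ c α (1 : K))⁻¹ := by
    intro α hα
    rw [eq_inv_iff_mul_eq_one, ← hadd α hα, neg_add_cancel, hzero α hα]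
  have hone : ∀ α, ip C4 α α = 2 → ∀ s : K, (s = 1 ∨ s = -1) → XP χ c α s ∈ H → XP χ c α (1 : K) ∈ H := by
    intro α hα s hs h
    rcases hs with rfl | rfl
    · exact h
    · rw [hinv α hα] at h
      exact (Subgroup.inv_mem_iff H).1 h
  have hone' : ∀ α, ip C4 α α = 2 → ∀ s : K, (s = 1 ∨ s = -1) → XP χ c α (1 : K) ∈ H → XP χ c α s ∈ H := by
    intro α hα s hs h
    rcases hs with rfl | rfl
    · exact h
    · rw [hinv α hα]
      exact H.inv_mem h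
  -- products of lists
  have hprd : ∀ (l₁ l₂ : List ((Fin 4 → ℤ) × K)) (u : Fin 4 → ℤ) (ε : K),
      pq χ c (l₁ ++ (u, ε) :: l₂) = pq χ c l₁ * (XP χ c u ε * pq χ c l₂) := by
    intro l₁ l₂ u ε
    unfold pq
    rw [List.map_append, List.prod_append, List.map_cons, List.prod_cons]
  have hpc : ∀ (P : List ((Fin 4 → ℤ) × Bool)) (l : List ((Fin 4 → ℤ) × K)) (β : Fin 4 → ℤ) (s : K), OKs P l →
      (∀ p ∈ P, ip C4 p.1 p.1 = 2) → ip C4 β β = 2 → (∀ p ∈ P, 0 ≤ ip C4 p.1 β) → Commute (pq χ c l) (XP χ c β s) := by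
    intro P l β s h0 h1 h2 h3
    unfold pq
    refine Commute.list_prod_left _ _ fun x hx => ?_
    obtain ⟨q, hq, rfl⟩ := List.mem_map.1 hx
    obtain ⟨p, hp, h4, _⟩ := S4N_mem h0 q hq
    rw [h4]
    exact hcom _ _ (h1 p hp) h2 (h3 p hp) _ _
  have hpp : ∀ (P P' : List ((Fin 4 → ℤ) × Bool)) (l l' : List ((Fin 4 → ℤ) × K)), OKs P l → OKs P' l' →
      (∀ p ∈ P, ip C4 p.1 p.1 = 2) → (∀ p ∈ P', ip C4 p.1 p.1 = 2) → (∀ p ∈ P, ∀ q ∈ P', 0 ≤ ip C4 p.1 q.1) →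
      Commute (pq χ c l) (pq χ c l') := by
    intro P P' l l' g1 g2 h1 h2 h3
    have h4 : Commute (pq χ c l) ((l'.map fun p => XP χ c p.1 p.2).prod) := by
      refine Commute.list_prod_right _ _ fun x hx => ?_
      obtain ⟨q, hq, rfl⟩ := List.mem_map.1 hx
      obtain ⟨p, hp, h5, _⟩ := S4N_mem g2 q hq
      rw [h5]
      exact hpc P l p.1 _ g1 h1 (h2 p hp) fun q hq => h3 q hq p hp
    exact h4
  have hsplit : ∀ (P₁ P₂ : List ((Fin 4 → ℤ) × Bool)) (u : Fin 4 → ℤ), (P₁ ++ (u, true) :: P₂) ∈ PL →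
      ip C4 u u = 2 ∧ (∀ p ∈ P₁, ip C4 p.1 p.1 = 2) ∧ (∀ p ∈ P₂, ip C4 p.1 p.1 = 2) ∧
      ∃ (l₁ l₂ : List ((Fin 4 → ℤ) × K)) (ε : K), OKs P₁ l₁ ∧ OKs P₂ l₂ ∧ (ε = 1 ∨ ε = -1) ∧
        pq χ c l₁ * (XP χ c u ε * pq χ c l₂) ∈ H := by
    intro P₁ P₂ u h
    have h1 := hroot _ h
    refine ⟨h1 (u, true) (by simp), fun p hp => h1 p (by simp [hp]), fun p hp => h1 p (by simp [hp]), ?_⟩
    obtain ⟨l, hl, hm⟩ := hPL _ h
    obtain ⟨l₁, l₂, ε, rfl, h3, h4, h5⟩ := S4N_split P₂ u P₁ l hl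
    rw [hprd] at hm
    exact ⟨l₁, l₂, ε, h3, h4, h5, hm⟩
  induction hr with
  | com P₁ P₂ Q₁ Q₂ u v w hP hQ h =>
    obtain ⟨huv, rfl, hp, hq⟩ := h
    obtain ⟨ru, rP1, rP2, a₁, a₂, ε, oa1, oa2, hε, hPH⟩ := hsplit _ _ _ hP
    obtain ⟨rv, rQ1, rQ2, b₁, b₂, ε', ob1, ob2, hε', hQH⟩ := hsplit _ _ _ hQ
    have rw' : ip C4 (u + v) (u + v) = 2 := (add_root_iff ru rv).2 huv
    refine ⟨rw', ?_⟩
    have m1 : ∀ p ∈ P₁, p ∈ P₁ ++ P₂ := fun p h => List.mem_append_left _ h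
    have m2 : ∀ p ∈ P₂, p ∈ P₁ ++ P₂ := fun p h => List.mem_append_right _ h
    have n1 : ∀ p ∈ Q₁, p ∈ Q₁ ++ Q₂ := fun p h => List.mem_append_left _ h
    have n2 : ∀ p ∈ Q₂, p ∈ Q₁ ++ Q₂ := fun p h => List.mem_append_right _ h
    refine hone _ rw' _ (S4N_mul (S4N_mul hε hε') (S4N_sg K u v)) (S4N_key H ((hX u v ru rv ε ε').2.2.2 huv)
      (hpp P₁ Q₁ _ _ oa1 ob1 rP1 rQ1 ?_) (hpc P₁ _ v ε' oa1 rP1 rv ?_)
      (hpp P₁ Q₂ _ _ oa1 ob2 rP1 rQ2 ?_) (hpc P₁ _ _ _ oa1 rP1 rw' ?_) (hpp P₂ Q₁ _ _ oa2 ob1 rP2 rQ1 ?_)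
      (hpc P₂ _ v ε' oa2 rP2 rv ?_)
      (hpp P₂ Q₂ _ _ oa2 ob2 rP2 rQ2 ?_) (hpc Q₁ _ u ε ob1 rQ1 ru ?_).symm (hpc Q₂ _ u ε ob2 rQ2 ru ?_).symm
      (hpc Q₂ _ _ _ ob2 rQ2 rw' ?_) hPH hQH)
    · exact fun p h1 q h2 => (hp p (m1 p h1)).2.2 q (n1 q h2)
    · exact fun p h1 => (hp p (m1 p h1)).1
    · exact fun p h1 q h2 => (hp p (m1 p h1)).2.2 q (n2 q h2)
    · exact fun p h1 => (hp p (m1 p h1)).2.1
    · exact fun p h1 q h2 => (hp p (m2 p h1)).2.2 q (n1 q h2)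
    · exact fun p h1 => (hp p (m2 p h1)).1
    · exact fun p h1 q h2 => (hp p (m2 p h1)).2.2 q (n2 q h2)
    · intro q h1
      rw [ip_comm]
      exact (hq q (n1 q h1)).1
    · intro q h1
      rw [ip_comm]
      exact (hq q (n2 q h1)).1
    · exact fun q h1 => (hq q (n2 q h1)).2
  | act r Q₁ Q₂ v w _ hQ h ih =>
    obtain ⟨hrv, rfl, hq⟩ := h
    obtain ⟨rr, hrH⟩ := ih
    obtain ⟨rv, rQ1, rQ2, b₁, b₂, ε', ob1, ob2, hε', hQH⟩ := hsplit _ _ _ hQ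
    have rw' : ip C4 (r + v) (r + v) = 2 := (add_root_iff rr rv).2 hrv
    refine ⟨rw', ?_⟩
    have n1 : ∀ p ∈ Q₁, p ∈ Q₁ ++ Q₂ := fun p h => List.mem_append_left _ h
    have n2 : ∀ p ∈ Q₂, p ∈ Q₁ ++ Q₂ := fun p h => List.mem_append_right _ h
    refine hone _ rw' _ (S4N_mul (S4N_mul (Or.inl rfl) hε') (S4N_sg K r v)) (S4N_key H (p₁ := 1) (p₂ := 1)
      ((hX r v rr rv 1 ε').2.2.2 hrv) (Commute.one_left _)
      (Commute.one_left _) (Commute.one_left _) (Commute.one_left _) (Commute.one_left _) (Commute.one_left _)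
      (Commute.one_left _) (hpc Q₁ _ r 1 ob1 rQ1 rr ?_).symm (hpc Q₂ _ r 1 ob2 rQ2 rr ?_).symm
      (hpc Q₂ _ _ _ ob2 rQ2 rw' ?_) ?_ hQH)
    · intro q h1
      rw [ip_comm]
      exact (hq q (n1 q h1)).1
    · intro q h1
      rw [ip_comm]
      exact (hq q (n2 q h1)).1
    · exact fun q h1 => (hq q (n2 q h1)).2
    · rw [one_mul, mul_one]
      exact hrH
  | add r s w _ _ h ih1 ih2 =>
    obtain ⟨hrs, rfl⟩ := h
    obtain ⟨rr, hrH⟩ := ih1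
    obtain ⟨rs, hsH⟩ := ih2
    have rw' : ip C4 (r + s) (r + s) = 2 := (add_root_iff rr rs).2 hrs
    refine ⟨rw', ?_⟩
    refine hone _ rw' _ (S4N_mul (S4N_mul (Or.inl rfl) (Or.inl rfl)) (S4N_sg K r s)) (S4N_key H (p₁ := 1) (p₂ := 1)
      (q₁ := 1) (q₂ := 1) ((hX r s rr rs 1 1).2.2.2 hrs)
      (Commute.one_left _) (Commute.one_left _) (Commute.one_left _) (Commute.one_left _) (Commute.one_left _)
      (Commute.one_left _) (Commute.one_left _) (Commute.one_right _) (Commute.one_right _) (Commute.one_left _) ?_ ?_)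
    · rw [one_mul, mul_one]
      exact hrH
    · rw [one_mul, mul_one]
      exact hsH
  | one P₁ P₂ u hP htrue _ ih =>
    obtain ⟨ru, rP1, rP2, a₁, a₂, ε, oa1, oa2, hε, hPH⟩ := hsplit _ _ _ hP
    refine ⟨ru, ?_⟩
    have hmem : ∀ (P : List ((Fin 4 → ℤ) × Bool)) (l : List ((Fin 4 → ℤ) × K)), OKs P l →
        (∀ p ∈ P, p ∈ P₁ ++ P₂) → pq χ c l ∈ H := by
      intro P l ho hl
      unfold pq
      refine Subgroup.list_prod_mem H fun x hx => ?_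
      obtain ⟨q, hq, rfl⟩ := List.mem_map.1 hx
      obtain ⟨p, hp, h5, h6⟩ := S4N_mem ho q hq
      rw [h5]
      obtain ⟨h7, h8⟩ := ih p (hl p hp)
      exact hone' p.1 h7 q.2 (h6 (htrue p (hl p hp))) h8
    have h1 := hmem P₁ a₁ oa1 fun p h => List.mem_append_left _ h
    have h2 := hmem P₂ a₂ oa2 fun p h => List.mem_append_right _ h
    have h3 : XP χ c u ε = (pq χ c a₁)⁻¹ * (pq χ c a₁ * (XP χ c u ε * pq χ c a₂)) * (pq χ c a₂)⁻¹ := by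
      group
    refine hone u ru ε hε ?_
    rw [h3]
    exact H.mul_mem (H.mul_mem (H.inv_mem h1) hPH) (H.inv_mem h2)
  | yy r a w _ h ih =>
    exact absurd h.1 (by simp)

end Pool.Agent.TRI
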